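import Mathlib
import Pool.Agent.H27.RapidB

set_option autoImplicit false

open scoped Pointwise Classical

namespace Pool.Agent.Results.MP_d581c5_al.ProperLength

theorem result :
    ∃ (G : Type) (_ : Group G) (_ : Countable G) (L : G → ℝ),
      (∀ g, 0 ≤ L g) ∧ L 1 = 0 ∧ (∀ g, L g⁻¹ = L g) ∧ (∀ g h, L (g * h) ≤ L g + L h) ∧
      (∀ r : ℝ, {g : G | L g ≤ r}.Finite) ∧
      (∃ C : ℝ, 0 < C ∧ ∃ d : ℕ, ∀ r : ℝ, 0 ≤ r → ∀ S X : Finset G,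
          (∀ s ∈ S, L s ≤ r) →
          (S.card : ℝ) * (X.card : ℝ) ≤ C * (1 + r) ^ d * ((S * X).card : ℝ)) ∧
      ¬ ∃ C : ℝ, 0 < C ∧ ∃ d : ℕ, ∀ r : ℝ, 0 ≤ r →
        ∀ (A B : Finset G) (f g : G → ℂ), (∀ y ∈ A, L y ≤ r) →
          ∑ x ∈ A * B, ‖∑ p ∈ (A ×ˢ B).filter (fun p => p.1 * p.2 = x), f p.1 * g p.2‖ ^ 2
            ≤ (C * (1 + r) ^ d) ^ 2 * (∑ y ∈ A, ‖f y‖ ^ 2) * (∑ z ∈ B, ‖g z‖ ^ 2) := by
  refine ⟨FreeGroup ℕ, inferInstance, FreeGroup.toWord_injective.countable,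
    fun w => (Pool.Agent.H27.Rapid.Ln w : ℝ), fun _ => Nat.cast_nonneg _,
    by simp [Pool.Agent.H27.Rapid.Ln_one], fun g => by simp only [Pool.Agent.H27.Rapid.Ln_inv],
    fun g k => ?_, fun r => ?_,
    @Pool.Agent.H27.Rapid.has_RE (fun a b => Classical.propDecidable (a = b)),
    @Pool.Agent.H27.Rapid.not_RD (fun a b => Classical.propDecidable (a = b))⟩
  · show (Pool.Agent.H27.Rapid.Ln (g * k) : ℝ) ≤
      (Pool.Agent.H27.Rapid.Ln g : ℝ) + (Pool.Agent.H27.Rapid.Ln k : ℝ)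
    exact_mod_cast Pool.Agent.H27.Rapid.Ln_mul g k
  · refine (Pool.Agent.H27.Rapid.Ln_proper ⌈r⌉₊).subset (fun w hw => ?_)
    have h1 : (Pool.Agent.H27.Rapid.Ln w : ℝ) ≤ r := hw
    have h2 : (Pool.Agent.H27.Rapid.Ln w : ℝ) ≤ (⌈r⌉₊ : ℕ) := h1.trans (Nat.le_ceil r)
    exact_mod_cast h2

end Pool.Agent.Results.MP_d581c5_al.ProperLength
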